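import Pool.Agent.MWF.Stmts

/-!
# Row ABS of MWF: the square of a product of idempotent letters absorbs all its letters
-/

namespace Pool.Agent.MWF.H75

open Pool.Agent.Helper14_MV Pool.Agent.Helper2_MV Pool.Agent.MWF

/-- the value of a list in the quotient -/
def qv (β : FIC) (l : List ℕ) : β.con.Quotient := β.con.mk' (FreeMonoid.ofList l)

theorem qv_append (β : FIC) (l m : List ℕ) : qv β (l ++ m) = qv β l * qv β m := by
  unfold qv
  rw [FreeMonoid.ofList_append, map_mul]

theorem qv_eq {β : FIC} {l m : List ℕ} : qv β l = qv β m ↔ RR β l m := by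
  unfold qv RR
  exact Con.eq β.con

theorem dbl_append (u v : List ℕ) : dbl (u ++ v) = dbl u ++ dbl v := by
  unfold dbl
  rw [List.flatMap_append]

theorem cube {β : FIC} (hA : Ap β) (l : List ℕ) :
    qv β l * qv β l = qv β l * qv β l * qv β l := by
  have h := hA.sq.sub (fun _ => l)
  have e1 : ([0, 0] : List ℕ).flatMap (fun _ => l) = l ++ l := by
    simp [List.flatMap_cons]
  have e2 : ([0, 0, 0] : List ℕ).flatMap (fun _ => l) = l ++ l ++ l := by
    simp [List.flatMap_cons]
  rw [e1, e2] at h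
  have h1 := qv_eq.2 h
  rw [qv_append, qv_append, qv_append] at h1
  exact h1

/-- the rotation step in a monoid -/
theorem rot {M : Type*} [Monoid M] (e B : M) (hU : e * B * (e * B) = e * B * (e * B) * (e * B))
    (hV : B * e * (B * e) = B * e * (B * e) * (B * e))
    (h1 : e * B * (e * B) * e = e * B * (e * B)) (h2 : e * (B * e * (B * e)) = B * e * (B * e)) :
    e * B * (e * B) = B * e * (B * e) := by
  calc e * B * (e * B) = e * B * (e * B) * (e * B) := hU
    _ = e * B * (e * B * (e * B)) := by rw [mul_assoc (e * B) (e * B) (e * B)]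
    _ = e * B * (e * B * (e * B) * e) := by rw [h1]
    _ = e * (B * e * (B * e) * (B * e)) := by simp only [mul_assoc]
    _ = e * (B * e * (B * e)) := by rw [← hV]
    _ = B * e * (B * e) := h2

theorem abs (hPow : PowStmt) (hAbf : AbfStmt) : AbsStmt := by
  intro β hM hA
  have hid : ∀ c, qv β [c, c] * qv β [c, c] = qv β [c, c] := by
    intro c
    rw [← qv_append]
    exact qv_eq.2 (hPow β hA.sq c 4 2 (by omega) (by omega))
  have habs1 : ∀ c, qv β [c, c] * qv β [c] = qv β [c, c] := by
    intro c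
    rw [← qv_append]
    exact qv_eq.2 (hPow β hA.sq c 3 2 (by omega) (by omega))
  have habs2 : ∀ c, qv β [c] * qv β [c, c] = qv β [c, c] := by
    intro c
    rw [← qv_append]
    exact qv_eq.2 (hPow β hA.sq c 3 2 (by omega) (by omega))
  have hcons : ∀ (c : ℕ) (u : List ℕ), qv β (dbl (c :: u)) = qv β [c, c] * qv β (dbl u) := by
    intro c u
    rw [← qv_append]
    rfl
  have hsnoc : ∀ (c : ℕ) (u : List ℕ), qv β (dbl (u ++ [c])) = qv β (dbl u) * qv β [c, c] := by
    intro c u
    rw [← qv_append, dbl_append]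
    rfl
  have hfirst : ∀ (c : ℕ) (u : List ℕ), qv β (dbl (c :: u)) * qv β (dbl (c :: u)) * qv β [c, c] =
      qv β (dbl (c :: u)) * qv β (dbl (c :: u)) := by
    intro c u
    obtain ⟨l, d, hd⟩ : ∃ (l : List ℕ) (d : ℕ), c :: u = l ++ [d] :=
      ⟨(c :: u).dropLast, (c :: u).getLast (by simp), by simp [List.dropLast_append_getLast]⟩
    exact (hAbf β hM hA (qv β [c, c]) (qv β [d, d]) (qv β (dbl u)) (qv β (dbl l)) _ (hid c) (hid d)
      (hcons c u) (by rw [hd]; exact hsnoc d l) (cube hA _)).1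
  have hlast : ∀ (d : ℕ) (l : List ℕ), qv β [d, d] *
      (qv β (dbl (l ++ [d])) * qv β (dbl (l ++ [d]))) =
      qv β (dbl (l ++ [d])) * qv β (dbl (l ++ [d])) := by
    intro d l
    obtain ⟨c, u, hc⟩ : ∃ (c : ℕ) (u : List ℕ), l ++ [d] = c :: u := by
      cases l with
      | nil => exact ⟨d, [], rfl⟩
      | cons c u => exact ⟨c, u ++ [d], rfl⟩
    exact (hAbf β hM hA (qv β [c, c]) (qv β [d, d]) (qv β (dbl u)) (qv β (dbl l)) _ (hid c) (hid d)
      (by rw [hc]; exact hcons c u) (hsnoc d l) (cube hA _)).2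
  have hrot1 : ∀ (c : ℕ) (u : List ℕ), qv β (dbl (c :: u)) * qv β (dbl (c :: u)) =
      qv β (dbl (u ++ [c])) * qv β (dbl (u ++ [c])) := by
    intro c u
    have h1 := hfirst c u
    have h2 := hlast c u
    have h3 := cube hA (dbl (c :: u))
    have h4 := cube hA (dbl (u ++ [c]))
    rw [hcons] at h1 h3
    rw [hsnoc] at h2 h4
    rw [hcons, hsnoc]
    exact rot _ _ h3 h4 h1 h2
  have hrot : ∀ (l m : List ℕ), qv β (dbl (l ++ m)) * qv β (dbl (l ++ m)) =
      qv β (dbl (m ++ l)) * qv β (dbl (m ++ l)) := by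
    intro l
    induction l with
    | nil =>
      intro m
      rw [List.nil_append, List.append_nil]
    | cons c l ih =>
      intro m
      have h1 := hrot1 c (l ++ m)
      have h2 := ih (m ++ [c])
      rw [List.append_assoc] at h1
      rw [List.cons_append, h1, h2, List.append_assoc]
      rfl
  intro u c hc
  obtain ⟨l, r, rfl⟩ := List.append_of_mem hc
  have hR : qv β (dbl (l ++ c :: r)) * qv β (dbl (l ++ c :: r)) * qv β [c, c] =
      qv β (dbl (l ++ c :: r)) * qv β (dbl (l ++ c :: r)) := by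
    rw [hrot l (c :: r)]
    exact hfirst c (r ++ l)
  have hL : qv β [c, c] * (qv β (dbl (l ++ c :: r)) * qv β (dbl (l ++ c :: r))) =
      qv β (dbl (l ++ c :: r)) * qv β (dbl (l ++ c :: r)) := by
    have e1 : l ++ c :: r = (l ++ [c]) ++ r := by simp
    rw [e1, hrot (l ++ [c]) r, ← List.append_assoc]
    exact hlast c (r ++ l)
  constructor
  · apply qv_eq.1
    rw [qv_append, qv_append, ← hR, mul_assoc _ _ (qv β [c]), habs1]
  · apply qv_eq.1
    have e2 : c :: (dbl (l ++ c :: r) ++ dbl (l ++ c :: r)) =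
        [c] ++ (dbl (l ++ c :: r) ++ dbl (l ++ c :: r)) := rfl
    rw [e2, qv_append, qv_append, ← hL, ← mul_assoc, habs2]

end Pool.Agent.MWF.H75
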